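import Pool.Agent.Y245.LR.Stm

/-!
# Windows without zeros (job LR-WIN+SMALL of helper245)
-/

set_option autoImplicit false

namespace Pool.Agent.Y971.LR

open Real Set Filter Topology
open TH259.NS (J B J_eq B_cont)
open Pool.Agent.TH298.AN (B_large)
open Pool.Agent.Y245.LR

lemma J_cont (N : ℕ) : Continuous (J N) := by
  have h : J N = fun t => (t / 2) ^ N * B N (t ^ 2 / 4) := funext (J_eq N)
  rw [h]
  have h1 : Continuous fun t : ℝ => (t / 2) ^ N := by fun_prop
  have h2 : Continuous fun t : ℝ => t ^ 2 / 4 := by fun_prop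
  exact h1.mul ((B_cont N).comp h2)

lemma J_ne_of_large {S : ℝ} (N : ℕ) (hn : S * exp S < N + 1) {t : ℝ} (ht : 0 < t)
    (hS : t ^ 2 / 4 ≤ S) : J N t ≠ 0 := by
  rw [J_eq]
  exact mul_ne_zero (by positivity) (B_large N hn (by positivity) hS).ne'

theorem win : S_WIN := by
  intro t0 ht0 h
  obtain ⟨M, hM⟩ := exists_nat_gt (t0 ^ 2 * exp (t0 ^ 2))
  have hfin : ∀ n : ℕ, ∃ η : ℝ, 0 < η ∧ ∀ N : ℕ, 2 ≤ N → N < n → ∀ t : ℝ, |t - t0| ≤ η →
      J N t ≠ 0 := by
    intro n
    induction n with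
    | zero => exact ⟨1, one_pos, fun N _ h => absurd h (Nat.not_lt_zero _)⟩
    | succ n ih =>
      obtain ⟨η, hη, h1⟩ := ih
      by_cases hn : 2 ≤ n
      · have hev : ∀ᶠ t in 𝓝 t0, J n t ≠ 0 := (J_cont n).continuousAt.eventually_ne (h n hn)
        obtain ⟨δ, hδ, h2⟩ := Metric.eventually_nhds_iff.1 hev
        refine ⟨min η (δ / 2), lt_min hη (half_pos hδ), fun N hN hlt t ht => ?_⟩
        rcases lt_or_eq_of_le (Nat.lt_succ_iff.1 hlt) with h3 | h3
        · exact h1 N hN h3 t (ht.trans (min_le_left _ _))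
        · rw [h3]
          refine h2 ?_
          rw [Real.dist_eq]
          exact (ht.trans (min_le_right _ _)).trans_lt (half_lt_self hδ)
      · exact ⟨η, hη, fun N hN hlt t ht => h1 N hN (by omega) t ht⟩
  obtain ⟨η, hη, h1⟩ := hfin M
  refine ⟨min η (t0 / 2), lt_min hη (half_pos ht0),
    (min_le_right _ _).trans_lt (half_lt_self ht0), ?_⟩
  intro N hN t ht
  have ht1 := ht.trans (min_le_left _ _)
  have ht2 := abs_le.1 (ht.trans (min_le_right _ _))
  rcases lt_or_ge N M with h3 | h3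
  · exact h1 N hN h3 t ht1
  · refine J_ne_of_large (S := t0 ^ 2) N ?_ (by linarith [ht2.1]) (by nlinarith [ht2.1, ht2.2])
    have : (M : ℝ) ≤ N := by exact_mod_cast h3
    linarith

theorem small : S_SMALL := by
  intro N hN t ht ht1
  refine J_ne_of_large (S := 1 / 4) N ?_ ht (by nlinarith)
  have h1 : exp (1 / 4) ≤ exp 1 := exp_le_exp.2 (by norm_num)
  have h2 := Real.exp_one_lt_d9
  have h3 : (2 : ℝ) ≤ N := by exact_mod_cast hN
  linarith

end Pool.Agent.Y971.LR
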